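import Mathlib

/-!
# Clique partition numbers of a graph and its complement

`M(n)`, the maximum of `cp(G) cp(Gᶜ)` over the graphs `G` on `n` vertices, is at least
`n ^ 4 / 49 - O(n ^ 3)`.
-/

namespace Pool.Agent.Results.MP_c18ddb_co.ProductLower

open Finset

/-- `P` is a clique partition of `G`: a family of cliques of `G`, each with at least two
vertices, such that every edge of `G` lies in exactly one of them. -/
def IsCliquePartition {n : ℕ} (G : SimpleGraph (Fin n)) (P : Finset (Finset (Fin n))) : Prop :=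
  (∀ K ∈ P, G.IsClique (K : Set (Fin n)) ∧ 2 ≤ K.card) ∧
    ∀ u v, G.Adj u v → ∃! K, K ∈ P ∧ u ∈ K ∧ v ∈ K

/-- The clique partition number of `G`: the least number of cliques in a clique partition. -/
noncomputable def cp {n : ℕ} (G : SimpleGraph (Fin n)) : ℕ :=
  sInf {k | ∃ P : Finset (Finset (Fin n)), IsCliquePartition G P ∧ P.card = k}

/-- `M n` is the largest value of `cp G * cp Gᶜ` over the graphs `G` on `n` vertices. -/
noncomputable def M (n : ℕ) : ℕ := ⨆ G : SimpleGraph (Fin n), cp G * cp Gᶜ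

/-- clique partitions exist: the edges -/
theorem exists_partition {n : ℕ} (G : SimpleGraph (Fin n)) :
    ∃ P : Finset (Finset (Fin n)), IsCliquePartition G P := by
  classical
  refine ⟨univ.filter (fun K => ∃ u v, G.Adj u v ∧ K = {u, v}), ?_, ?_⟩
  · intro K hK
    rw [mem_filter] at hK
    obtain ⟨u, v, huv, rfl⟩ := hK.2
    refine ⟨?_, ?_⟩
    · rw [SimpleGraph.isClique_iff]
      intro a ha b hb hab
      simp only [coe_insert, coe_singleton, Set.mem_insert_iff, Set.mem_singleton_iff] at ha hb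
      rcases ha with rfl | rfl <;> rcases hb with rfl | rfl
      · exact absurd rfl hab
      · exact huv
      · exact huv.symm
      · exact absurd rfl hab
    · rw [card_pair huv.ne]
  · intro u v huv
    refine ⟨{u, v}, ⟨?_, by simp, by simp⟩, ?_⟩
    · rw [mem_filter]
      exact ⟨mem_univ _, u, v, huv, rfl⟩
    · rintro K ⟨hK, hu, hv⟩
      rw [mem_filter] at hK
      obtain ⟨a, b, hab, rfl⟩ := hK.2
      have hne := huv.ne
      simp only [mem_insert, mem_singleton] at hu hv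
      rcases hu with rfl | rfl <;> rcases hv with rfl | rfl
      · exact absurd rfl hne
      · rfl
      · exact Finset.pair_comm _ _
      · exact absurd rfl hne

theorem le_cp {n : ℕ} (G : SimpleGraph (Fin n)) (k : ℕ)
    (h : ∀ P, IsCliquePartition G P → k ≤ P.card) : k ≤ cp G := by
  unfold cp
  obtain ⟨P, hP⟩ := exists_partition G
  have hne : {k | ∃ P : Finset (Finset (Fin n)), IsCliquePartition G P ∧ P.card = k}.Nonempty :=
    ⟨_, P, hP, rfl⟩
  obtain ⟨Q, hQ, hc⟩ := Nat.sInf_mem hne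
  rw [← hc]
  exact h Q hQ

/-- The weight bound: if every clique has total weight at most `1` (the sum over ordered pairs
is at most `2`) then the total weight of the edges is a lower bound for a clique partition. -/
theorem weight_le {n : ℕ} (G : SimpleGraph (Fin n)) (P : Finset (Finset (Fin n)))
    (hP : IsCliquePartition G P) (w : Fin n → Fin n → ℤ)
    (hw0 : ∀ u v, u ≠ v → ¬ G.Adj u v → w u v = 0)
    (hw : ∀ K : Finset (Fin n), G.IsClique (K : Set (Fin n)) →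
      ∑ p ∈ K.offDiag, w p.1 p.2 ≤ 2) :
    ∑ p ∈ (univ : Finset (Fin n)).offDiag, w p.1 p.2 ≤ 2 * (P.card : ℤ) := by
  classical
  have hdisj : (P : Set (Finset (Fin n))).PairwiseDisjoint (fun K => K.offDiag) := by
    intro K hK L hL hKL
    rw [Function.onFun, Finset.disjoint_left]
    rintro ⟨u, v⟩ h1 h2
    rw [mem_offDiag] at h1 h2
    apply hKL
    have hadj : G.Adj u v := (hP.1 K hK).1 h1.1 h1.2.1 h1.2.2
    obtain ⟨A, _, hA⟩ := hP.2 u v hadj
    rw [hA K ⟨hK, h1.1, h1.2.1⟩, hA L ⟨hL, h2.1, h2.2.1⟩]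
  have hsub : P.biUnion (fun K => K.offDiag) ⊆ (univ : Finset (Fin n)).offDiag := by
    intro p hp
    rw [mem_biUnion] at hp
    obtain ⟨K, _, hpK⟩ := hp
    rw [mem_offDiag] at hpK ⊢
    exact ⟨mem_univ _, mem_univ _, hpK.2.2⟩
  have hsum : ∑ p ∈ (univ : Finset (Fin n)).offDiag, w p.1 p.2 =
      ∑ p ∈ P.biUnion (fun K => K.offDiag), w p.1 p.2 := by
    symm
    apply Finset.sum_subset hsub
    rintro ⟨u, v⟩ h1 h2
    rw [mem_offDiag] at h1
    apply hw0 u v h1.2.2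
    intro hadj
    obtain ⟨A, ⟨hA1, hA2, hA3⟩, _⟩ := hP.2 u v hadj
    apply h2
    rw [mem_biUnion]
    exact ⟨A, hA1, by rw [mem_offDiag]; exact ⟨hA2, hA3, h1.2.2⟩⟩
  rw [hsum, Finset.sum_biUnion hdisj]
  calc ∑ K ∈ P, ∑ p ∈ K.offDiag, w p.1 p.2 ≤ ∑ _K ∈ P, (2 : ℤ) :=
        Finset.sum_le_sum (fun K hK => hw K (hP.1 K hK).1)
    _ = 2 * (P.card : ℤ) := by rw [Finset.sum_const, nsmul_eq_mul, mul_comm]

/-- The sum over ordered pairs of distinct elements of a weight that depends on the classes. -/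
theorem sum_offDiag_class {V : Type*} [DecidableEq V] (S : Finset V) (c : V → Fin 7)
    (w : Fin 7 → Fin 7 → ℤ) :
    ∑ p ∈ S.offDiag, w (c p.1) (c p.2) =
      ∑ i, ∑ j, w i j * ((S.filter (fun v => c v = i)).card : ℤ) *
        ((S.filter (fun v => c v = j)).card : ℤ) -
      ∑ i, w i i * ((S.filter (fun v => c v = i)).card : ℤ) := by
  have h1 : ∀ f : Fin 7 → ℤ, ∑ v ∈ S, f (c v) =
      ∑ i, f i * ((S.filter (fun v => c v = i)).card : ℤ) := by
    intro f
    rw [← Finset.sum_fiberwise_of_maps_to (s := S) (t := univ) (g := c) (fun x _ => mem_univ _)]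
    apply Finset.sum_congr rfl
    intro i _
    rw [Finset.sum_congr rfl (g := fun _ => f i)
      (by intro x hx; rw [mem_filter] at hx; rw [hx.2])]
    rw [Finset.sum_const, nsmul_eq_mul, mul_comm]
  have h2 : ∑ p ∈ S ×ˢ S, w (c p.1) (c p.2) =
      ∑ i, ∑ j, w i j * ((S.filter (fun v => c v = i)).card : ℤ) *
        ((S.filter (fun v => c v = j)).card : ℤ) := by
    rw [Finset.sum_product]
    simp only
    rw [h1 (fun i => ∑ y ∈ S, w i (c y))]
    apply Finset.sum_congr rfl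
    intro i _
    rw [h1 (fun j => w i j), Finset.sum_mul]
    apply Finset.sum_congr rfl
    intro j _
    ring
  have h3 : ∑ p ∈ S.diag, w (c p.1) (c p.2) =
      ∑ i, w i i * ((S.filter (fun v => c v = i)).card : ℤ) := by
    rw [Finset.sum_diag]
    exact h1 (fun i => w i i)
  have h4 : ∑ p ∈ S ×ˢ S, w (c p.1) (c p.2) =
      ∑ p ∈ S.diag, w (c p.1) (c p.2) + ∑ p ∈ S.offDiag, w (c p.1) (c p.2) := by
    rw [← Finset.diag_union_offDiag, Finset.sum_union (Finset.disjoint_diag_offDiag S)]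
  linarith

/-- the red class graph (with loops): `red i j` says that classes `i` and `j` are joined in `G` -/
def red : Fin 7 → Fin 7 → Bool :=
  ![![false, true, true, false, false, false, false],
    ![true, false, false, true, false, false, false],
    ![true, false, true, false, true, true, false],
    ![false, true, false, true, true, true, false],
    ![false, false, true, true, false, true, false],
    ![false, false, true, true, true, false, false],
    ![false, false, false, false, false, false, false]]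

/-- weights for the red edges -/
def wR : Fin 7 → Fin 7 → ℤ :=
  ![![0, 1, 1, 0, 0, 0, 0],
    ![1, 0, 0, 1, 0, 0, 0],
    ![1, 0, -1, 0, 1, 1, 0],
    ![0, 1, 0, -1, 1, 1, 0],
    ![0, 0, 1, 1, 0, -2, 0],
    ![0, 0, 1, 1, -2, 0, 0],
    ![0, 0, 0, 0, 0, 0, 0]]

/-- weights for the blue edges -/
def wB : Fin 7 → Fin 7 → ℤ :=
  ![![-1, 0, 0, 1, 1, 1, 0],
    ![0, -1, 1, 0, 1, 1, 0],
    ![0, 1, 0, 1, 0, 0, 0],
    ![1, 0, 1, 0, 0, 0, 0],
    ![1, 1, 0, 0, -2, 0, 0],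
    ![1, 1, 0, 0, 0, -2, 0],
    ![0, 0, 0, 0, 0, 0, 0]]

theorem red_symm : ∀ i j, red i j = red j i := by decide

theorem wR_zero : ∀ i j, red i j = false → wR i j = 0 := by decide

theorem wB_zero : ∀ i j, red i j = true → wB i j = 0 := by decide

theorem consec (z : ℤ) : 0 ≤ z * (z - 1) := by
  rcases le_or_gt z 0 with h | h
  · nlinarith
  · have : 1 ≤ z := h
    nlinarith

/-- the inequality for red cliques -/
theorem red_ineq (a0 a1 a2 a3 a4 a5 : ℤ) (h0 : 0 ≤ a0) (h1 : 0 ≤ a1) (h4 : 0 ≤ a4)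
    (h5 : 0 ≤ a5) (l0 : a0 ≤ 1) (l1 : a1 ≤ 1) (l4 : a4 ≤ 1) (l5 : a5 ≤ 1)
    (z03 : a0 * a3 = 0) (z04 : a0 * a4 = 0) (z05 : a0 * a5 = 0) (z12 : a1 * a2 = 0)
    (z14 : a1 * a4 = 0) (z15 : a1 * a5 = 0) (z23 : a2 * a3 = 0) :
    2 * (a0 * a1 + a0 * a2 + a1 * a3 + a2 * a4 + a2 * a5 + a3 * a4 + a3 * a5 - 2 * a4 * a5)
      - a2 * (a2 - 1) - a3 * (a3 - 1) ≤ 2 := by
  have c2 := consec a2
  have c3 := consec a3
  have d2 := consec (a2 - 1)
  have d3 := consec (a3 - 1)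
  have e2 := consec (a2 - 2)
  have e3 := consec (a3 - 2)
  rcases mul_eq_zero.1 z23 with h | h <;> subst h <;>
  interval_cases a0 <;> interval_cases a1 <;> interval_cases a4 <;> interval_cases a5 <;>
    simp_all <;> nlinarith

/-- the inequality for blue cliques -/
theorem blue_ineq (a0 a1 a2 a3 a4 a5 : ℤ) (h2 : 0 ≤ a2) (h3 : 0 ≤ a3) (l2 : a2 ≤ 1) (l3 : a3 ≤ 1)
    (z01 : a0 * a1 = 0) (z02 : a0 * a2 = 0) (z13 : a1 * a3 = 0) (z24 : a2 * a4 = 0)
    (z25 : a2 * a5 = 0) (z34 : a3 * a4 = 0) (z35 : a3 * a5 = 0) (z45 : a4 * a5 = 0) :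
    2 * (a0 * a3 + a0 * a4 + a0 * a5 + a1 * a2 + a1 * a4 + a1 * a5 + a2 * a3)
      - a0 * (a0 - 1) - a1 * (a1 - 1) - 2 * (a4 * (a4 - 1)) - 2 * (a5 * (a5 - 1)) ≤ 2 := by
  have c0 := consec a0
  have c1 := consec a1
  have c4 := consec a4
  have c5 := consec a5
  have d0 := consec (a0 - 1)
  have d1 := consec (a1 - 1)
  have d4 := consec (a4 - 1)
  have d5 := consec (a5 - 1)
  have e04 := consec (a0 - a4)
  have e05 := consec (a0 - a5)
  have e14 := consec (a1 - a4)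
  have e15 := consec (a1 - a5)
  rcases mul_eq_zero.1 z01 with h | h <;> subst h <;>
  rcases mul_eq_zero.1 z45 with h' | h' <;> subst h' <;>
  interval_cases a2 <;> interval_cases a3 <;>
    simp_all <;> nlinarith

/-- the class of a vertex -/
def cls (m v : ℕ) : Fin 7 :=
  if v < 3 * m then 0 else if v < 6 * m then 1 else if v < 9 * m then 2 else
  if v < 12 * m then 3 else if v < 13 * m then 4 else if v < 14 * m then 5 else 6

theorem cls_eq (m v : ℕ) :
    (cls m v = 0 ↔ 0 ≤ v ∧ v < 3 * m) ∧ (cls m v = 1 ↔ 3 * m ≤ v ∧ v < 6 * m) ∧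
    (cls m v = 2 ↔ 6 * m ≤ v ∧ v < 9 * m) ∧ (cls m v = 3 ↔ 9 * m ≤ v ∧ v < 12 * m) ∧
    (cls m v = 4 ↔ 12 * m ≤ v ∧ v < 13 * m) ∧ (cls m v = 5 ↔ 13 * m ≤ v ∧ v < 14 * m) := by
  unfold cls
  refine ⟨?_, ?_, ?_, ?_, ?_, ?_⟩ <;> split_ifs <;> simp <;> omega

theorem card_interval {n a b : ℕ} (hb : b ≤ n) :
    ((univ : Finset (Fin n)).filter (fun v => a ≤ v.val ∧ v.val < b)).card = b - a := by
  rw [← Nat.card_Ico a b]
  apply Finset.card_bij (fun v _ => v.val)
  · intro v hv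
    rw [mem_filter] at hv
    rw [mem_Ico]
    exact hv.2
  · intro v _ w _ h
    exact Fin.ext h
  · intro x hx
    rw [mem_Ico] at hx
    exact ⟨⟨x, by omega⟩, by rw [mem_filter]; exact ⟨mem_univ _, hx⟩, rfl⟩

/-- the graph -/
def gr (n m : ℕ) : SimpleGraph (Fin n) where
  Adj u v := u ≠ v ∧ red (cls m u) (cls m v) = true
  symm := ⟨fun u v h => ⟨h.1.symm, by rw [red_symm]; exact h.2⟩⟩
  loopless := ⟨fun u h => h.1 rfl⟩

/-- number of elements of `K` in class `i` -/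
def cnt {n : ℕ} (m : ℕ) (K : Finset (Fin n)) (i : Fin 7) : ℤ :=
  ((K.filter (fun v => cls m v.val = i)).card : ℤ)

theorem cnt_nonneg {n m : ℕ} (K : Finset (Fin n)) (i : Fin 7) : 0 ≤ cnt m K i := by
  unfold cnt; positivity

/-- If no two distinct vertices of `K` are in class `i`. -/
theorem cnt_le_one {n m : ℕ} (K : Finset (Fin n)) (i : Fin 7)
    (h : ∀ u ∈ K, ∀ v ∈ K, u ≠ v → ¬ (cls m u.val = i ∧ cls m v.val = i)) : cnt m K i ≤ 1 := by
  unfold cnt
  have : (K.filter (fun v => cls m v.val = i)).card ≤ 1 := by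
    rw [Finset.card_le_one]
    intro a ha b hb
    rw [mem_filter] at ha hb
    by_contra hab
    exact h a ha.1 b hb.1 hab ⟨ha.2, hb.2⟩
  exact_mod_cast this

theorem cnt_mul_zero {n m : ℕ} (K : Finset (Fin n)) (i j : Fin 7) (hij : i ≠ j)
    (h : ∀ u ∈ K, ∀ v ∈ K, u ≠ v → ¬ (cls m u.val = i ∧ cls m v.val = j)) :
    cnt m K i * cnt m K j = 0 := by
  unfold cnt
  rcases Finset.eq_empty_or_nonempty (K.filter (fun v => cls m v.val = i)) with h1 | ⟨u, hu⟩
  · rw [h1]; simp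
  · rcases Finset.eq_empty_or_nonempty (K.filter (fun v => cls m v.val = j)) with h2 | ⟨v, hv⟩
    · rw [h2]; simp
    · exfalso
      rw [mem_filter] at hu hv
      have huv : u ≠ v := by
        rintro rfl
        exact hij (hu.2.symm.trans hv.2)
      exact h u hu.1 v hv.1 huv ⟨hu.2, hv.2⟩

theorem red_clique {n m : ℕ} (K : Finset (Fin n)) (hK : (gr n m).IsClique (K : Set (Fin n))) :
    ∑ p ∈ K.offDiag, wR (cls m p.1.val) (cls m p.2.val) ≤ 2 := by
  have key : ∀ i j, red i j = false →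
      ∀ u ∈ K, ∀ v ∈ K, u ≠ v → ¬ (cls m u.val = i ∧ cls m v.val = j) := by
    intro i j hij u hu v hv huv h
    have := hK (mem_coe.2 hu) (mem_coe.2 hv) huv
    have h2 : red (cls m u) (cls m v) = true := this.2
    rw [h.1, h.2, hij] at h2
    exact Bool.false_ne_true h2
  rw [sum_offDiag_class K (fun v => cls m v.val) wR]
  have := red_ineq (cnt m K 0) (cnt m K 1) (cnt m K 2) (cnt m K 3) (cnt m K 4) (cnt m K 5)
    (cnt_nonneg _ _) (cnt_nonneg _ _) (cnt_nonneg _ _) (cnt_nonneg _ _)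
    (cnt_le_one K 0 (key 0 0 (by decide))) (cnt_le_one K 1 (key 1 1 (by decide)))
    (cnt_le_one K 4 (key 4 4 (by decide))) (cnt_le_one K 5 (key 5 5 (by decide)))
    (cnt_mul_zero K 0 3 (by decide) (key 0 3 (by decide)))
    (cnt_mul_zero K 0 4 (by decide) (key 0 4 (by decide)))
    (cnt_mul_zero K 0 5 (by decide) (key 0 5 (by decide)))
    (cnt_mul_zero K 1 2 (by decide) (key 1 2 (by decide)))
    (cnt_mul_zero K 1 4 (by decide) (key 1 4 (by decide)))
    (cnt_mul_zero K 1 5 (by decide) (key 1 5 (by decide)))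
    (cnt_mul_zero K 2 3 (by decide) (key 2 3 (by decide)))
  unfold cnt at this
  simp only [Fin.sum_univ_seven, wR, Matrix.cons_val]
  linarith

theorem blue_clique {n m : ℕ} (K : Finset (Fin n)) (hK : (gr n m)ᶜ.IsClique (K : Set (Fin n))) :
    ∑ p ∈ K.offDiag, wB (cls m p.1.val) (cls m p.2.val) ≤ 2 := by
  have key : ∀ i j, red i j = true →
      ∀ u ∈ K, ∀ v ∈ K, u ≠ v → ¬ (cls m u.val = i ∧ cls m v.val = j) := by
    intro i j hij u hu v hv huv h
    have := hK (mem_coe.2 hu) (mem_coe.2 hv) huv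
    rw [SimpleGraph.compl_adj] at this
    apply this.2
    refine ⟨huv, ?_⟩
    rw [h.1, h.2, hij]
  rw [sum_offDiag_class K (fun v => cls m v.val) wB]
  have := blue_ineq (cnt m K 0) (cnt m K 1) (cnt m K 2) (cnt m K 3) (cnt m K 4) (cnt m K 5)
    (cnt_nonneg _ _) (cnt_nonneg _ _)
    (cnt_le_one K 2 (key 2 2 (by decide))) (cnt_le_one K 3 (key 3 3 (by decide)))
    (cnt_mul_zero K 0 1 (by decide) (key 0 1 (by decide)))
    (cnt_mul_zero K 0 2 (by decide) (key 0 2 (by decide)))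
    (cnt_mul_zero K 1 3 (by decide) (key 1 3 (by decide)))
    (cnt_mul_zero K 2 4 (by decide) (key 2 4 (by decide)))
    (cnt_mul_zero K 2 5 (by decide) (key 2 5 (by decide)))
    (cnt_mul_zero K 3 4 (by decide) (key 3 4 (by decide)))
    (cnt_mul_zero K 3 5 (by decide) (key 3 5 (by decide)))
    (cnt_mul_zero K 4 5 (by decide) (key 4 5 (by decide)))
  unfold cnt at this
  simp only [Fin.sum_univ_seven, wB, Matrix.cons_val]
  linarith

theorem cnt_univ {n m : ℕ} (h : 14 * m ≤ n) :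
    ((univ.filter (fun v : Fin n => cls m v.val = 0)).card : ℤ) = 3 * m ∧
    ((univ.filter (fun v : Fin n => cls m v.val = 1)).card : ℤ) = 3 * m ∧
    ((univ.filter (fun v : Fin n => cls m v.val = 2)).card : ℤ) = 3 * m ∧
    ((univ.filter (fun v : Fin n => cls m v.val = 3)).card : ℤ) = 3 * m ∧
    ((univ.filter (fun v : Fin n => cls m v.val = 4)).card : ℤ) = m ∧
    ((univ.filter (fun v : Fin n => cls m v.val = 5)).card : ℤ) = m := by
  have e0 : ∀ v : Fin n, cls m v.val = 0 ↔ 0 ≤ v.val ∧ v.val < 3 * m := fun v => (cls_eq m v).1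
  have e1 : ∀ v : Fin n, cls m v.val = 1 ↔ 3 * m ≤ v.val ∧ v.val < 6 * m :=
    fun v => (cls_eq m v).2.1
  have e2 : ∀ v : Fin n, cls m v.val = 2 ↔ 6 * m ≤ v.val ∧ v.val < 9 * m :=
    fun v => (cls_eq m v).2.2.1
  have e3 : ∀ v : Fin n, cls m v.val = 3 ↔ 9 * m ≤ v.val ∧ v.val < 12 * m :=
    fun v => (cls_eq m v).2.2.2.1
  have e4 : ∀ v : Fin n, cls m v.val = 4 ↔ 12 * m ≤ v.val ∧ v.val < 13 * m :=
    fun v => (cls_eq m v).2.2.2.2.1
  have e5 : ∀ v : Fin n, cls m v.val = 5 ↔ 13 * m ≤ v.val ∧ v.val < 14 * m :=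
    fun v => (cls_eq m v).2.2.2.2.2
  simp only [e0, e1, e2, e3, e4, e5]
  refine ⟨?_, ?_, ?_, ?_, ?_, ?_⟩ <;> rw [card_interval (by omega)] <;> omega

theorem cp_red {n m : ℕ} (h : 14 * m ≤ n) : 28 * m ^ 2 ≤ cp (gr n m) := by
  apply le_cp
  intro P hP
  have h1 := weight_le (gr n m) P hP (fun u v => wR (cls m u.val) (cls m v.val))
    (by
      intro u v huv hn
      apply wR_zero
      by_contra hc
      exact hn ⟨huv, by simpa using hc⟩)
    (fun K hK => red_clique K hK)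
  rw [sum_offDiag_class univ (fun v : Fin n => cls m v.val) wR] at h1
  obtain ⟨e0, e1, e2, e3, e4, e5⟩ := cnt_univ h
  simp only [Fin.sum_univ_seven, wR, Matrix.cons_val, e0, e1, e2, e3, e4, e5] at h1
  have h2 : (28 * m ^ 2 : ℤ) ≤ P.card := by nlinarith
  exact_mod_cast h2

theorem cp_blue {n m : ℕ} (h : 14 * m ≤ n) : 28 * m ^ 2 ≤ cp (gr n m)ᶜ := by
  apply le_cp
  intro P hP
  have h1 := weight_le (gr n m)ᶜ P hP (fun u v => wB (cls m u.val) (cls m v.val))
    (by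
      intro u v huv hn
      apply wB_zero
      by_contra hc
      apply hn
      rw [SimpleGraph.compl_adj]
      refine ⟨huv, fun hadj => hc hadj.2⟩)
    (fun K hK => blue_clique K hK)
  rw [sum_offDiag_class univ (fun v : Fin n => cls m v.val) wB] at h1
  obtain ⟨e0, e1, e2, e3, e4, e5⟩ := cnt_univ h
  simp only [Fin.sum_univ_seven, wB, Matrix.cons_val, e0, e1, e2, e3, e4, e5] at h1
  have h2 : (28 * m ^ 2 : ℤ) ≤ P.card := by nlinarith
  exact_mod_cast h2

theorem le_M {n : ℕ} (G : SimpleGraph (Fin n)) : cp G * cp Gᶜ ≤ M n :=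
  le_ciSup (f := fun G : SimpleGraph (Fin n) => cp G * cp Gᶜ) (Set.finite_range _).bddAbove G

/-- **Main result.** For every `n ≥ 13` there is a graph `G` on `n` vertices for which both
`cp G` and `cp Gᶜ` are at least `(n - 13) ^ 2 / 7`; hence
`M n ≥ (n ^ 4 - 52 n ^ 3) / 49` for all `n`. -/
theorem result :
    (∀ n : ℕ, 13 ≤ n → ∃ G : SimpleGraph (Fin n),
      ((n : ℝ) - 13) ^ 2 / 7 ≤ (cp G : ℝ) ∧ ((n : ℝ) - 13) ^ 2 / 7 ≤ (cp Gᶜ : ℝ)) ∧
    (∀ n : ℕ, (n : ℝ) ^ 4 / 49 - 52 / 49 * (n : ℝ) ^ 3 ≤ (M n : ℝ)) := by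
  have H : ∀ n : ℕ, 13 ≤ n → ∃ G : SimpleGraph (Fin n),
      ((n : ℝ) - 13) ^ 2 / 7 ≤ (cp G : ℝ) ∧ ((n : ℝ) - 13) ^ 2 / 7 ≤ (cp Gᶜ : ℝ) := by
    intro n hn
    have hm : 14 * (n / 14) ≤ n := Nat.mul_div_le n 14
    have hm2 : n ≤ 14 * (n / 14) + 13 := by omega
    set m := n / 14 with hmdef
    have hnr : (13 : ℝ) ≤ n := by exact_mod_cast hn
    have hm3 : (n : ℝ) ≤ 14 * (m : ℝ) + 13 := by exact_mod_cast hm2
    have hb : ((n : ℝ) - 13) ^ 2 / 7 ≤ 28 * (m : ℝ) ^ 2 := by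
      have h1 : 0 ≤ (n : ℝ) - 13 := by linarith
      have h2 : (n : ℝ) - 13 ≤ 14 * m := by linarith
      have h3 : ((n : ℝ) - 13) ^ 2 ≤ (14 * (m : ℝ)) ^ 2 := pow_le_pow_left₀ h1 h2 2
      nlinarith
    refine ⟨gr n m, hb.trans ?_, hb.trans ?_⟩
    · exact_mod_cast cp_red hm
    · exact_mod_cast cp_blue hm
  refine ⟨H, ?_⟩
  intro n
  rcases le_or_gt 13 n with hn | hn
  · obtain ⟨G, h1, h2⟩ := H n hn
    have h3 : ((cp G : ℝ)) * (cp Gᶜ : ℝ) ≤ (M n : ℝ) := by exact_mod_cast le_M G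
    refine le_trans ?_ h3
    have hnr : (13 : ℝ) ≤ n := by exact_mod_cast hn
    have h0 : 0 ≤ ((n : ℝ) - 13) ^ 2 / 7 := by positivity
    have h4 : ((n : ℝ) - 13) ^ 2 / 7 * (((n : ℝ) - 13) ^ 2 / 7) ≤ (cp G : ℝ) * (cp Gᶜ : ℝ) :=
      mul_le_mul h1 h2 h0 (h0.trans h1)
    refine le_trans ?_ h4
    have h5 : ((n : ℝ) - 13) ^ 4 ≥ (n : ℝ) ^ 4 - 52 * (n : ℝ) ^ 3 := by
      have e : ((n : ℝ) - 13) ^ 4 - ((n : ℝ) ^ 4 - 52 * (n : ℝ) ^ 3) =
          169 * (6 * (n : ℝ) ^ 2 - 52 * n + 169) := by ring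
      nlinarith [sq_nonneg ((n : ℝ) - 5)]
    have e2 : ((n : ℝ) - 13) ^ 2 / 7 * (((n : ℝ) - 13) ^ 2 / 7) = ((n : ℝ) - 13) ^ 4 / 49 := by
      ring
    rw [e2]
    linarith
  · have hnr : (n : ℝ) ≤ 13 := by exact_mod_cast hn.le
    have h0 : (0 : ℝ) ≤ (M n : ℝ) := Nat.cast_nonneg _
    have h1 : (0 : ℝ) ≤ (n : ℝ) := Nat.cast_nonneg _
    have h2 : (0 : ℝ) ≤ (n : ℝ) ^ 3 := by positivity
    have : (n : ℝ) ^ 4 / 49 - 52 / 49 * (n : ℝ) ^ 3 = (n : ℝ) ^ 3 * ((n - 52) / 49) := by ring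
    rw [this]
    have h3 : (n : ℝ) ^ 3 * (((n : ℝ) - 52) / 49) ≤ 0 := by
      apply mul_nonpos_of_nonneg_of_nonpos h2
      linarith
    linarith

end Pool.Agent.Results.MP_c18ddb_co.ProductLower
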